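import Pool.Agent.N658.TP.Stm3

/-! # TP/TrM: `Tr exp` is monotone -/

open scoped BigOperators ComplexConjugate Classical InnerProductSpace Matrix ComplexOrder
open scoped Matrix.Norms.L2Operator

noncomputable section

namespace Pool.Agent.N441.TP

open Pool.Agent.N658.TP

variable {n : Type} [Fintype n] [DecidableEq n]

/-- the matrix element in a column of `U` -/
lemma qf_col (U A : Matrix n n ℂ) (i : n) :
    qf A (fun s => U s i) = ((Uᴴ * A * U) i i).re := by
  unfold qf Pool.Agent.TH235.PP.ip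
  congr 1
  rw [Matrix.mul_assoc, Matrix.mul_apply]
  refine Finset.sum_congr rfl fun s _ => ?_
  rw [Matrix.conjTranspose_apply]
  rfl

lemma nsq_col (U : Matrix n n ℂ) (hU : Uᴴ * U = 1) (i : n) : nsq (fun s => U s i) = 1 := by
  unfold nsq Pool.Agent.TH235.PP.normSq
  have h : (Uᴴ * U) i i = 1 := by rw [hU]; simp
  rw [Matrix.mul_apply] at h
  have h2 := congrArg Complex.re h
  rw [Complex.re_sum] at h2
  simp only [Complex.one_re] at h2
  rw [← h2]
  refine Finset.sum_congr rfl fun s _ => ?_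
  rw [Matrix.conjTranspose_apply]
  have : star (U s i) * U s i = ((‖U s i‖ ^ 2 : ℝ) : ℂ) := by
    have := Complex.conj_mul' (U s i)
    rw [← Complex.ofReal_pow] at this
    exact this
  rw [this, Complex.ofReal_re]

/-- the spectral decomposition of a Hermitian matrix and of its exponential -/
lemma spec_exp (X : Matrix n n ℂ) (hX : X.IsHermitian) :
    ∃ (U : Matrix n n ℂ) (x : n → ℝ), Uᴴ * U = 1 ∧ U * Uᴴ = 1 ∧
      Uᴴ * X * U = Matrix.diagonal (fun i => (x i : ℂ)) ∧
      Uᴴ * NormedSpace.exp X * U = Matrix.diagonal (fun i => ((Real.exp (x i) : ℝ) : ℂ)) := by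
  set U : Matrix n n ℂ := (hX.eigenvectorUnitary : Matrix n n ℂ) with hU
  have h1 : Uᴴ * U = 1 := by
    have := (Matrix.mem_unitaryGroup_iff' (A := U)).1 hX.eigenvectorUnitary.2
    rwa [Matrix.star_eq_conjTranspose] at this
  have h2 : U * Uᴴ = 1 := by
    have := (Matrix.mem_unitaryGroup_iff (A := U)).1 hX.eigenvectorUnitary.2
    rwa [Matrix.star_eq_conjTranspose] at this
  have h3 : X = U * Matrix.diagonal (fun i => ((hX.eigenvalues i : ℝ) : ℂ)) * Uᴴ := by
    have := hX.spectral_theorem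
    rw [Unitary.conjStarAlgAut_apply] at this
    exact this
  refine ⟨U, hX.eigenvalues, h1, h2, ?_, ?_⟩
  · conv_lhs => rw [h3]
    calc Uᴴ * (U * Matrix.diagonal (fun i => ((hX.eigenvalues i : ℝ) : ℂ)) * Uᴴ) * U
        = (Uᴴ * U) * Matrix.diagonal (fun i => ((hX.eigenvalues i : ℝ) : ℂ)) * (Uᴴ * U) := by
          simp only [mul_assoc]
      _ = _ := by rw [h1, one_mul, mul_one]
  · have hinv : U⁻¹ = Uᴴ := Matrix.inv_eq_right_inv h2
    have hu : IsUnit U := IsUnit.of_mul_eq_one Uᴴ h2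
    have h4 : NormedSpace.exp X =
        U * NormedSpace.exp (Matrix.diagonal (fun i => ((hX.eigenvalues i : ℝ) : ℂ))) * Uᴴ := by
      conv_lhs => rw [h3]
      rw [← hinv]
      exact Matrix.exp_conj U _ hu
    rw [h4, Matrix.exp_diagonal]
    have h5 : NormedSpace.exp (fun i => ((hX.eigenvalues i : ℝ) : ℂ)) =
        fun i => ((Real.exp (hX.eigenvalues i) : ℝ) : ℂ) := by
      funext i
      rw [Pi.exp_def]
      simp only
      rw [← Complex.exp_eq_exp_ℂ, Complex.ofReal_exp]
    rw [h5]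
    calc Uᴴ * (U * Matrix.diagonal (fun i => ((Real.exp (hX.eigenvalues i) : ℝ) : ℂ)) * Uᴴ) * U
        = (Uᴴ * U) * Matrix.diagonal (fun i => ((Real.exp (hX.eigenvalues i) : ℝ) : ℂ)) *
          (Uᴴ * U) := by simp only [mul_assoc]
      _ = _ := by rw [h1, one_mul, mul_one]

lemma trace_col (U A : Matrix n n ℂ) (h2 : U * Uᴴ = 1) :
    A.trace.re = ∑ i, qf A (fun s => U s i) := by
  have h : A.trace = (Uᴴ * A * U).trace := by
    rw [mul_assoc, Matrix.trace_mul_comm, mul_assoc, h2, mul_one]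
  rw [h, Matrix.trace, Complex.re_sum]
  refine Finset.sum_congr rfl fun i _ => ?_
  rw [qf_col, Matrix.diag_apply]

theorem trM (h : StmPB) : StmTrM := by
  intro n _ _ X Y hX hY hle
  obtain ⟨U, x, h1, h2, h3, h4⟩ := spec_exp X hX
  rw [trace_col U _ h2, trace_col U _ h2]
  refine Finset.sum_le_sum fun i _ => ?_
  have ha : qf (NormedSpace.exp X) (fun s => U s i) = Real.exp (x i) := by
    rw [qf_col, h4, Matrix.diagonal_apply_eq, Complex.ofReal_re]
  have hb : qf X (fun s => U s i) = x i := by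
    rw [qf_col, h3, Matrix.diagonal_apply_eq, Complex.ofReal_re]
  have hc := (h n Y hY (fun s => U s i) (nsq_col U h1 i)).1
  have hd := hle (fun s => U s i)
  rw [ha, ← hb]
  exact (Real.exp_le_exp.2 hd).trans hc

end Pool.Agent.N441.TP
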